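import Mathlib

set_option autoImplicit false

/-!
# Inconjugate intersection number versus number of prime divisors

Question Q1 of MP_c68965_al has a negative answer, and the failure is unbounded: for a prime `p`, the
group of all maps `v ↦ a v + w` of the plane over `ZMod p` (`a` a nonzero scalar) is solvable of order
`p ^ 2 * (p - 1)`, and the stabilisers of three lines forming a triangle are maximal, pairwise
inconjugate and intersect trivially.
-/

namespace Pool.Agent.Results.MP_c68965_al.ThreeLines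

/-- `n` is realised: there are maximal subgroups `M_1, …, M_n`, pairwise inconjugate, with intersection
the Frattini subgroup. -/
def Realised (G : Type) [Group G] (n : ℕ) : Prop :=
  1 ≤ n ∧ ∃ M : Fin n → Subgroup G, (∀ i, IsCoatom (M i)) ∧
    (∀ i j, i ≠ j → ∀ g : G, M i ≠ (M j).map (MulAut.conj g).toMonoidHom) ∧
    (⨅ i, M i) = frattini G

/-- The inconjugate intersection number (`⊤` if no family exists). -/
noncomputable def iotaHat (G : Type) [Group G] : ℕ∞ :=
  sInf {k : ℕ∞ | ∃ n : ℕ, k = n ∧ Realised G n}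

/-- The group of the maps `v ↦ a v + (x, y)` of the plane over `ZMod p`. -/
@[ext] structure Aff (p : ℕ) where
  a : (ZMod p)ˣ
  x : ZMod p
  y : ZMod p

namespace Aff

variable {p : ℕ}

instance : Mul (Aff p) := ⟨fun g h => ⟨g.a * h.a, g.x + g.a * h.x, g.y + g.a * h.y⟩⟩
instance : One (Aff p) := ⟨⟨1, 0, 0⟩⟩
instance : Inv (Aff p) := ⟨fun g => ⟨g.a⁻¹, -(((g.a⁻¹ : (ZMod p)ˣ) : ZMod p) * g.x),
  -(((g.a⁻¹ : (ZMod p)ˣ) : ZMod p) * g.y)⟩⟩

@[simp] lemma mul_a (g h : Aff p) : (g * h).a = g.a * h.a := rfl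
@[simp] lemma mul_x (g h : Aff p) : (g * h).x = g.x + g.a * h.x := rfl
@[simp] lemma mul_y (g h : Aff p) : (g * h).y = g.y + g.a * h.y := rfl
@[simp] lemma one_a : (1 : Aff p).a = 1 := rfl
@[simp] lemma one_x : (1 : Aff p).x = 0 := rfl
@[simp] lemma one_y : (1 : Aff p).y = 0 := rfl
@[simp] lemma inv_a (g : Aff p) : (g⁻¹).a = g.a⁻¹ := rfl
@[simp] lemma inv_x (g : Aff p) : (g⁻¹).x = -(((g.a⁻¹ : (ZMod p)ˣ) : ZMod p) * g.x) := rfl
@[simp] lemma inv_y (g : Aff p) : (g⁻¹).y = -(((g.a⁻¹ : (ZMod p)ˣ) : ZMod p) * g.y) := rfl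

instance : Group (Aff p) :=
  Group.ofLeftAxioms
    (by
      intro g h k
      apply Aff.ext
      · exact mul_assoc _ _ _
      · simp only [mul_x, mul_a, Units.val_mul]; ring
      · simp only [mul_y, mul_a, Units.val_mul]; ring)
    (by
      intro g
      apply Aff.ext
      · exact one_mul _
      · simp
      · simp)
    (by
      intro g
      apply Aff.ext
      · exact inv_mul_cancel _
      · simp
      · simp)

/-- The linear part. -/
def lin : Aff p →* (ZMod p)ˣ where
  toFun g := g.a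
  map_one' := rfl
  map_mul' _ _ := rfl

/-- The translations. -/
def trans : Multiplicative (ZMod p × ZMod p) →* Aff p where
  toFun w := ⟨1, w.toAdd.1, w.toAdd.2⟩
  map_one' := rfl
  map_mul' v w := by
    apply Aff.ext
    · simp
    · simp
    · simp

instance : Group.IsSolvable (Aff p) := by
  refine Group.isSolvable_of_ker_le_range (trans (p := p)) lin ?_
  intro g hg
  refine ⟨Multiplicative.ofAdd (g.x, g.y), ?_⟩
  apply Aff.ext
  · exact (MonoidHom.mem_ker.1 hg).symm
  · rfl
  · rfl

/-- As a set. -/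
def equivProd : Aff p ≃ (ZMod p)ˣ × ZMod p × ZMod p where
  toFun g := (g.a, g.x, g.y)
  invFun t := ⟨t.1, t.2.1, t.2.2⟩
  left_inv _ := rfl
  right_inv _ := rfl

instance [NeZero p] : Finite (Aff p) := Finite.of_equiv _ equivProd.symm

lemma card_eq [Fact p.Prime] : Nat.card (Aff p) = (p - 1) * (p * p) := by
  rw [Nat.card_congr equivProd, Nat.card_prod, Nat.card_prod, Nat.card_zmod, Nat.card_eq_fintype_card,
    ZMod.card_units]

/-- The stabiliser of the line `s X + t Y = c`. -/
def stab (s t c : ZMod p) : Subgroup (Aff p) where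
  carrier := {g | s * g.x + t * g.y = c * (1 - g.a)}
  one_mem' := by simp
  mul_mem' := by
    intro g h hg hh
    simp only [Set.mem_ofPred_eq, mul_x, mul_y, mul_a, Units.val_mul] at *
    linear_combination hg + (g.a : ZMod p) * hh
  inv_mem' := by
    intro g hg
    simp only [Set.mem_ofPred_eq, inv_x, inv_y, inv_a] at *
    have h1 : ((g.a⁻¹ : (ZMod p)ˣ) : ZMod p) * (g.a : ZMod p) = 1 := by simp
    linear_combination -((g.a⁻¹ : (ZMod p)ˣ) : ZMod p) * hg + c * h1

lemma mem_stab {s t c : ZMod p} {g : Aff p} : g ∈ stab s t c ↔ s * g.x + t * g.y = c * (1 - g.a) :=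
  Iff.rfl

lemma pow_tr (x y : ZMod p) (n : ℕ) : (⟨1, x, y⟩ : Aff p) ^ n = ⟨1, n * x, n * y⟩ := by
  induction n with
  | zero =>
    apply Aff.ext
    · rfl
    · simp
    · simp
  | succ n ih =>
    rw [pow_succ, ih]
    apply Aff.ext
    · simp
    · simp; ring
    · simp; ring

lemma isCoatom_stab [Fact p.Prime] (s t c : ZMod p) (h : s ≠ 0 ∨ t ≠ 0) : IsCoatom (stab s t c) := by
  -- every value of the functional is taken
  have surj : ∀ r : ZMod p, ∃ x y : ZMod p, s * x + t * y = r := by
    intro r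
    rcases h with h | h
    · exact ⟨s⁻¹ * r, 0, by rw [← mul_assoc, mul_inv_cancel₀ h]; ring⟩
    · exact ⟨0, t⁻¹ * r, by rw [← mul_assoc, mul_inv_cancel₀ h]; ring⟩
  refine ⟨?_, ?_⟩
  · intro htop
    obtain ⟨x, y, hxy⟩ := surj 1
    have : (⟨1, x, y⟩ : Aff p) ∈ stab s t c := by rw [htop]; trivial
    rw [mem_stab] at this
    simp only [hxy, Units.val_one, sub_self, mul_zero] at this
    exact one_ne_zero this
  · intro K hK
    obtain ⟨hle, g, hgK, hg⟩ := SetLike.lt_iff_le_and_exists.1 hK
    rw [eq_top_iff]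
    obtain ⟨x', y', hv⟩ := surj (c * (1 - g.a))
    have hm : (⟨g.a, x', y'⟩ : Aff p) ∈ K := hle hv
    have hw : (⟨1, g.x - x', g.y - y'⟩ : Aff p) ∈ K := by
      have : (⟨1, g.x - x', g.y - y'⟩ : Aff p) = g * (⟨g.a, x', y'⟩ : Aff p)⁻¹ := by
        rw [eq_mul_inv_iff_mul_eq]
        apply Aff.ext
        · simp
        · simp
        · simp
      rw [this]
      exact K.mul_mem hgK (K.inv_mem hm)
    have hr : s * (g.x - x') + t * (g.y - y') ≠ 0 := by
      intro h0
      apply hg
      rw [mem_stab]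
      linear_combination h0 + hv
    -- all translations are in K
    have htr : ∀ x y : ZMod p, (⟨1, x, y⟩ : Aff p) ∈ K := by
      intro x y
      set r := s * (g.x - x') + t * (g.y - y') with hrdef
      set k : ZMod p := (s * x + t * y) * r⁻¹ with hk
      have h1 : (⟨1, k * (g.x - x'), k * (g.y - y')⟩ : Aff p) ∈ K := by
        have := K.pow_mem hw k.val
        rw [pow_tr, ZMod.natCast_zmod_val] at this
        exact this
      have h2 : (⟨1, x - k * (g.x - x'), y - k * (g.y - y')⟩ : Aff p) ∈ K := by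
        apply hle
        rw [mem_stab]
        simp only [Units.val_one, sub_self, mul_zero]
        have : k * r = s * x + t * y := by rw [hk, mul_assoc, inv_mul_cancel₀ hr, mul_one]
        rw [hrdef] at this
        linear_combination -this
      have h3 := K.mul_mem h1 h2
      have : (⟨1, k * (g.x - x'), k * (g.y - y')⟩ : Aff p) *
          ⟨1, x - k * (g.x - x'), y - k * (g.y - y')⟩ = ⟨1, x, y⟩ := by
        apply Aff.ext
        · simp
        · simp
        · simp
      rw [this] at h3
      exact h3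
    intro q _
    obtain ⟨x'', y'', hv'⟩ := surj (c * (1 - q.a))
    have h1 : (⟨q.a, x'', y''⟩ : Aff p) ∈ K := hle hv'
    have h2 := K.mul_mem (htr (q.x - x'') (q.y - y'')) h1
    have : (⟨1, q.x - x'', q.y - y''⟩ : Aff p) * ⟨q.a, x'', y''⟩ = q := by
      apply Aff.ext
      · simp
      · simp
      · simp
    rw [this] at h2
    exact h2

lemma stab_inconj [Fact p.Prime] (s t c s' t' c' x y : ZMod p) (h1 : s * x + t * y = 0)
    (h2 : s' * x + t' * y ≠ 0) (g : Aff p) :
    stab s' t' c' ≠ (stab s t c).map (MulAut.conj g).toMonoidHom := by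
  intro h
  have hm : (⟨1, x, y⟩ : Aff p) ∈ stab s t c := by
    rw [mem_stab]; simp [h1]
  have h3 : MulAut.conj g (⟨1, x, y⟩ : Aff p) ∈ stab s' t' c' := by
    rw [h]; exact ⟨_, hm, rfl⟩
  have e : MulAut.conj g (⟨1, x, y⟩ : Aff p) = ⟨1, g.a * x, g.a * y⟩ := by
    rw [MulAut.conj_apply, mul_inv_eq_iff_eq_mul]
    apply Aff.ext
    · simp
    · simp; ring
    · simp; ring
  rw [e, mem_stab] at h3
  simp only [Units.val_one, sub_self, mul_zero] at h3
  apply h2
  have : (g.a : ZMod p) * (s' * x + t' * y) = 0 := by linear_combination h3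
  exact (mul_eq_zero.1 this).resolve_left g.a.ne_zero

/-- Coefficients of the three lines `X = 0`, `Y = 0`, `X + Y = 1`. -/
def S : Fin 3 → ZMod p := ![1, 0, 1]
/-- Coefficients of the three lines. -/
def T : Fin 3 → ZMod p := ![0, 1, 1]
/-- Coefficients of the three lines. -/
def C : Fin 3 → ZMod p := ![0, 0, 1]

lemma realised [Fact p.Prime] : Realised (Aff p) 3 := by
  refine ⟨by norm_num, fun i => stab (S i) (T i) (C i), ?_, ?_, ?_⟩
  · intro i
    apply isCoatom_stab
    fin_cases i <;> simp [S, T]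
  · intro i j hij g
    fin_cases i <;> fin_cases j <;> simp only [Fin.zero_eta, Fin.mk_one, Fin.reduceFinMk, ne_eq,
      not_true_eq_false] at hij ⊢
    · exact stab_inconj _ _ _ _ _ _ 1 0 (by simp [S, T]) (by simp [S, T]) g
    · exact stab_inconj _ _ _ _ _ _ 1 (-1) (by simp [S, T]) (by simp [S, T]) g
    · exact stab_inconj _ _ _ _ _ _ 0 1 (by simp [S, T]) (by simp [S, T]) g
    · exact stab_inconj _ _ _ _ _ _ 1 (-1) (by simp [S, T]) (by simp [S, T]) g
    · exact stab_inconj _ _ _ _ _ _ 0 1 (by simp [S, T]) (by simp [S, T]) g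
    · exact stab_inconj _ _ _ _ _ _ 1 0 (by simp [S, T]) (by simp [S, T]) g
  · have hbot : (⨅ i : Fin 3, stab (S i) (T i) (C i) : Subgroup (Aff p)) = ⊥ := by
      rw [eq_bot_iff]
      intro g hg
      rw [Subgroup.mem_iInf] at hg
      have h0 := mem_stab.1 (hg 0)
      have h1 := mem_stab.1 (hg 1)
      have h2 := mem_stab.1 (hg 2)
      simp only [S, T, C, Matrix.cons_val_zero, Matrix.cons_val_one, Matrix.cons_val, one_mul,
        zero_mul, add_zero, zero_add] at h0 h1 h2
      rw [h0, h1, add_zero] at h2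
      rw [Subgroup.mem_bot]
      apply Aff.ext
      · apply Units.ext
        rw [one_a, Units.val_one]
        exact (sub_eq_zero.1 h2.symm).symm
      · exact h0
      · exact h1
    rw [hbot]
    symm
    rw [eq_bot_iff, ← hbot]
    refine le_iInf fun i => ?_
    apply frattini_le_coatom
    apply isCoatom_stab
    fin_cases i <;> simp [S, T]

end Aff

/-- **Answer to Q1 of MP_c68965_al: no**, with unbounded gap: for every `N` there is a nontrivial finite
solvable group with inconjugate intersection number at most `3` and at least `N` prime divisors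
(`N = 4` is the negation of Q1). -/
theorem result (N : ℕ) :
    ∃ (G : Type) (_ : Group G), Finite G ∧ Nontrivial G ∧ Group.IsSolvable G ∧
      iotaHat G ≤ 3 ∧ N ≤ (Nat.card G).primeFactors.card := by
  obtain ⟨S, hS, hcard⟩ := Nat.infinite_setOfPred_prime.exists_subset_card_eq N
  have hprod : (∏ q ∈ S, q) ≠ 0 := Finset.prod_ne_zero_iff.2 fun q hq => (hS hq).ne_zero
  obtain ⟨p, hp, -, hmod⟩ := Nat.exists_prime_gt_modEq_one 1 hprod
  have : Fact p.Prime := ⟨hp⟩
  refine ⟨Aff p, inferInstance, inferInstance, ?_, inferInstance, ?_, ?_⟩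
  · exact ⟨⟨1, 0, 0⟩, ⟨1, 1, 0⟩, fun h => absurd (congrArg Aff.x h) zero_ne_one⟩
  · exact sInf_le ⟨3, rfl, Aff.realised⟩
  · rw [← hcard]
    apply Finset.card_le_card
    intro q hq
    rw [Nat.mem_primeFactors]
    refine ⟨hS hq, ?_, ?_⟩
    · rw [Aff.card_eq]
      apply Dvd.dvd.mul_right
      exact (Finset.dvd_prod_of_mem _ hq).trans ((Nat.modEq_iff_dvd' hp.one_le).1 hmod.symm)
    · exact Nat.card_ne_zero.2 ⟨⟨1⟩, inferInstance⟩

end Pool.Agent.Results.MP_c68965_al.ThreeLines
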